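import Mathlib
import Pool.Agent.H755R5.Kum.Stmts2
import Pool.Agent.H407R3.Kum.D

/-! Task D2 of the project KUM (quadratic version with signs). The proof follows task D
(helper407). -/

set_option autoImplicit false

namespace Pool.Agent.H431R3.Kum

open NumberField Pool.Agent.H755R5.Kum Pool.Agent.H407R3.Kum

/-- natural number representatives of the roots of `X ^ 2 = η` modulo `r` -/
noncomputable def rootsZ (η : ℤ) (r : ℕ) : Finset ℕ := by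
  classical
  exact (Finset.range r).filter (fun k => ((k : ℕ) : ZMod r) ^ 2 = (η : ZMod r))

lemma mem_rootsZ {η : ℤ} {r k : ℕ} :
    k ∈ rootsZ η r ↔ k < r ∧ ((k : ℕ) : ZMod r) ^ 2 = (η : ZMod r) := by
  classical
  unfold rootsZ
  simp

/-- the quadratic character, with value `1` at the primes dividing `η` -/
noncomputable def chi (η : ℤ) (r : ℕ) : ℝ := by
  classical
  exact if ∃ t : ZMod r, t ^ 2 = (η : ZMod r) then 1 else -1

lemma chi_pos {η : ℤ} {r : ℕ} (h : ∃ t : ZMod r, t ^ 2 = (η : ZMod r)) : chi η r = 1 := by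
  unfold chi
  rw [if_pos h]

lemma chi_neg {η : ℤ} {r : ℕ} (h : ¬ ∃ t : ZMod r, t ^ 2 = (η : ZMod r)) : chi η r = -1 := by
  unfold chi
  rw [if_neg h]

lemma chi_le (η : ℤ) (r : ℕ) : chi η r ≤ 1 := by
  by_cases h : ∃ t : ZMod r, t ^ 2 = (η : ZMod r)
  · rw [chi_pos h]
  · rw [chi_neg h]; norm_num

lemma le_chi (η : ℤ) (r : ℕ) : -1 ≤ chi η r := by
  by_cases h : ∃ t : ZMod r, t ^ 2 = (η : ZMod r)
  · rw [chi_pos h]; norm_num
  · rw [chi_neg h]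

lemma local_ineq2 {η : ℤ} {r : ℕ} (hr : r.Prime) (h2 : r ≠ 2) (hη : (η : ZMod r) ≠ 0) :
    1 + chi η r ≤ ((rootsZ η r).card : ℝ) := by
  have : Fact r.Prime := ⟨hr⟩
  by_cases h : ∃ t : ZMod r, t ^ 2 = (η : ZMod r)
  · rw [chi_pos h]
    obtain ⟨t, ht⟩ := h
    have h1 : t.val ∈ rootsZ η r := by
      rw [mem_rootsZ]
      refine ⟨ZMod.val_lt _, ?_⟩
      rw [ZMod.natCast_val, ZMod.cast_id', id]
      exact ht
    have h3 : (-t).val ∈ rootsZ η r := by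
      rw [mem_rootsZ]
      refine ⟨ZMod.val_lt _, ?_⟩
      rw [ZMod.natCast_val, ZMod.cast_id', id, neg_sq]
      exact ht
    have h4 : t.val ≠ (-t).val := by
      intro h5
      have h6 : t = -t := ZMod.val_injective r h5
      have h7 : (2 : ZMod r) * t = 0 := by linear_combination h6
      have h8 : (2 : ZMod r) ≠ 0 := by
        intro h9
        have h10 : ((2 : ℕ) : ZMod r) = 0 := by exact_mod_cast h9
        rw [ZMod.natCast_eq_zero_iff] at h10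
        exact h2 ((Nat.prime_dvd_prime_iff_eq hr Nat.prime_two).mp h10)
      rcases mul_eq_zero.mp h7 with h9 | h9
      · exact h8 h9
      · apply hη
        rw [← ht, h9]
        norm_num
    have h5 : 1 < (rootsZ η r).card := Finset.one_lt_card.mpr ⟨_, h1, _, h3, h4⟩
    have h6 : ((2 : ℕ) : ℝ) ≤ ((rootsZ η r).card : ℝ) := by exact_mod_cast h5
    push_cast at h6
    linarith
  · rw [chi_neg h]
    have : (0 : ℝ) ≤ ((rootsZ η r).card : ℝ) := Nat.cast_nonneg _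
    linarith

/-- Task A applied to the ideals `P r t`. -/
lemma sum_rootsZ_le (hA : TaskA) {η : ℤ} (E : Type) [Field E] [NumberField E] (m : ℕ)
    (P : (r : ℕ) → ZMod r → Ideal (𝓞 E))
    (hP : ∀ r : ℕ, r.Prime → ¬ r ∣ m → ∀ t : ZMod r, t ^ 2 = (η : ZMod r) →
      (P r t).IsMaximal ∧ Ideal.absNorm (P r t) = r ∧
        ∀ t' : ZMod r, t' ^ 2 = (η : ZMod r) → P r t = P r t' → t = t') :
    ∃ C : ℝ, ∀ G : Finset ℕ, (∀ r ∈ G, r.Prime ∧ ¬ r ∣ m) → ∀ s : ℝ, 1 < s → s < 2 →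
      ∑ r ∈ G, ((rootsZ η r).card : ℝ) * (r : ℝ) ^ (-s) ≤ Real.log (1 / (s - 1)) + C := by
  classical
  obtain ⟨C, hC⟩ := hA E
  refine ⟨C, fun G hG s hs1 hs2 => ?_⟩
  set I : Finset ((_ : ℕ) × ℕ) := G.sigma (fun r => rootsZ η r) with hI
  have hmem : ∀ x ∈ I, x.1.Prime ∧ ¬ x.1 ∣ m ∧ x.2 < x.1 ∧
      ((x.2 : ℕ) : ZMod x.1) ^ 2 = (η : ZMod x.1) := by
    intro x hx
    rw [hI, Finset.mem_sigma, mem_rootsZ] at hx
    exact ⟨(hG _ hx.1).1, (hG _ hx.1).2, hx.2.1, hx.2.2⟩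
  have hinj : Set.InjOn (fun x : ((_ : ℕ) × ℕ) => P x.1 ((x.2 : ℕ) : ZMod x.1)) (I : Set _) := by
    rintro ⟨r, k⟩ hx ⟨r', k'⟩ hy hxy
    obtain ⟨a1, a2, a3, a4⟩ := hmem _ hx
    obtain ⟨b1, b2, b3, b4⟩ := hmem _ hy
    simp only at a1 a2 a3 a4 b1 b2 b3 b4 hxy
    have h1 := (hP r a1 a2 _ a4).2.1
    have h2 := (hP r' b1 b2 _ b4).2.1
    rw [hxy, h2] at h1
    subst h1
    have h3 := (hP r' a1 a2 _ a4).2.2 _ b4 hxy
    have h4 : k = k' := by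
      have := congrArg ZMod.val h3
      rwa [ZMod.val_natCast_of_lt a3, ZMod.val_natCast_of_lt b3] at this
    rw [h4]
  have key := hC (I.image (fun x : ((_ : ℕ) × ℕ) => P x.1 ((x.2 : ℕ) : ZMod x.1))) (by
    intro Q hQ
    rw [Finset.mem_image] at hQ
    obtain ⟨x, hx, rfl⟩ := hQ
    obtain ⟨a1, a2, a3, a4⟩ := hmem _ hx
    exact (hP _ a1 a2 _ a4).1) s hs1 hs2
  rw [Finset.sum_image hinj] at key
  have e : ∑ x ∈ I, ((Ideal.absNorm (P x.1 ((x.2 : ℕ) : ZMod x.1)) : ℕ) : ℝ) ^ (-s) =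
      ∑ r ∈ G, ((rootsZ η r).card : ℝ) * (r : ℝ) ^ (-s) := by
    rw [hI, Finset.sum_sigma]
    refine Finset.sum_congr rfl (fun r hr => ?_)
    rw [← nsmul_eq_mul, ← Finset.sum_const]
    refine Finset.sum_congr rfl (fun k hk => ?_)
    rw [mem_rootsZ] at hk
    rw [(hP r (hG r hr).1 (hG r hr).2 _ hk.2).2.1]
  rw [e] at key
  exact key

/-- the character sums are bounded above -/
lemma chi_sum_le (hA : TaskA) (hB : TaskB) (hC : TaskC2) (η : ℤ) (hη : ¬ ∃ t : ℤ, t ^ 2 = η) :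
    ∃ C : ℝ, ∀ s : ℝ, 1 < s → s < 2 → ∀ V : Finset ℕ, (∀ r ∈ V, r.Prime) →
      (∑' p : Nat.Primes, ((p : ℕ) : ℝ) ^ (-s)) - 1 ≤ ∑ r ∈ V, ((r : ℕ) : ℝ) ^ (-s) →
      ∑ r ∈ V, chi η r * ((r : ℕ) : ℝ) ^ (-s) ≤ C := by
  classical
  obtain ⟨E, iF, iN, m, P, hm, hP⟩ := hC η hη
  obtain ⟨CA, hCA⟩ := sum_rootsZ_le hA E m P hP
  obtain ⟨CB, hCB⟩ := hB
  have hη0 : η ≠ 0 := by
    rintro rfl
    exact hη ⟨0, by norm_num⟩
  set b : ℕ := m * (2 * η.natAbs) with hb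
  have hb0 : b ≠ 0 := by
    have := Int.natAbs_ne_zero.mpr hη0
    positivity
  set D : ℝ := (b.primeFactors.card : ℝ) with hD
  refine ⟨CA + CB + 1 + D + D, fun s hs1 hs2 V hVp hV => ?_⟩
  have hnn : ∀ r : ℕ, (0 : ℝ) ≤ ((r : ℕ) : ℝ) ^ (-s) := fun r => by positivity
  set G : Finset ℕ := V.filter (fun r => ¬ r ∣ b) with hG
  have hGb : ∀ r ∈ G, r.Prime ∧ ¬ r ∣ b := by
    intro r hr
    rw [hG, Finset.mem_filter] at hr
    exact ⟨hVp r hr.1, hr.2⟩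
  have hGm : ∀ r ∈ G, r.Prime ∧ ¬ r ∣ m := fun r hr =>
    ⟨(hGb r hr).1, fun h => (hGb r hr).2 (h.mul_right _)⟩
  have hG2 : ∀ r ∈ G, r ≠ 2 := by
    rintro r hr rfl
    exact (hGb 2 hr).2 ⟨m * η.natAbs, by rw [hb]; ring⟩
  have hGη : ∀ r ∈ G, (η : ZMod r) ≠ 0 := by
    intro r hr h0
    rw [ZMod.intCast_zmod_eq_zero_iff_dvd] at h0
    have h1 : r ∣ η.natAbs := Int.natCast_dvd.mp h0
    exact (hGb r hr).2 ((h1.mul_left 2).mul_left m)
  have h1 := hCA G hGm s hs1 hs2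
  have h2 := hCB s hs1 hs2
  have h3 : ∑ r ∈ G, (1 + chi η r) * ((r : ℕ) : ℝ) ^ (-s) ≤
      ∑ r ∈ G, ((rootsZ η r).card : ℝ) * (r : ℝ) ^ (-s) :=
    Finset.sum_le_sum (fun r hr => mul_le_mul_of_nonneg_right
      (local_ineq2 (hGb r hr).1 (hG2 r hr) (hGη r hr)) (hnn r))
  have h3' : ∑ r ∈ G, (1 + chi η r) * ((r : ℕ) : ℝ) ^ (-s) =
      ∑ r ∈ G, ((r : ℕ) : ℝ) ^ (-s) + ∑ r ∈ G, chi η r * ((r : ℕ) : ℝ) ^ (-s) := by
    rw [← Finset.sum_add_distrib]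
    exact Finset.sum_congr rfl (fun r _ => by ring)
  have h5 := bad_sum_le hb0 V hVp hs1
  have h6 : ∑ r ∈ V, ((r : ℕ) : ℝ) ^ (-s) =
      ∑ r ∈ V.filter (fun r => r ∣ b), ((r : ℕ) : ℝ) ^ (-s) + ∑ r ∈ G, ((r : ℕ) : ℝ) ^ (-s) := by
    rw [hG]
    exact (Finset.sum_filter_add_sum_filter_not V (fun r => r ∣ b) _).symm
  have h7 : ∑ r ∈ V, chi η r * ((r : ℕ) : ℝ) ^ (-s) =
      ∑ r ∈ V.filter (fun r => r ∣ b), chi η r * ((r : ℕ) : ℝ) ^ (-s) +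
        ∑ r ∈ G, chi η r * ((r : ℕ) : ℝ) ^ (-s) := by
    rw [hG]
    exact (Finset.sum_filter_add_sum_filter_not V (fun r => r ∣ b) _).symm
  have h8 : ∑ r ∈ V.filter (fun r => r ∣ b), chi η r * ((r : ℕ) : ℝ) ^ (-s) ≤
      ∑ r ∈ V.filter (fun r => r ∣ b), ((r : ℕ) : ℝ) ^ (-s) :=
    Finset.sum_le_sum (fun r _ => mul_le_of_le_one_left (hnn r) (chi_le η r))
  rw [← hD] at h5
  linarith

/-- a finite set of primes carrying almost all the sum and containing `T` -/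
lemma large (T : Finset ℕ) (hT : ∀ r ∈ T, r.Prime) (s : ℝ) (hs : 1 < s) :
    ∃ V : Finset ℕ, T ⊆ V ∧ (∀ r ∈ V, r.Prime) ∧
      (∑' p : Nat.Primes, ((p : ℕ) : ℝ) ^ (-s)) - 1 ≤ ∑ r ∈ V, ((r : ℕ) : ℝ) ^ (-s) := by
  classical
  have hsm : Summable (fun p : Nat.Primes => ((p : ℕ) : ℝ) ^ (-s)) :=
    Nat.Primes.summable_rpow.mpr (by linarith)
  obtain ⟨U, hU⟩ := (hsm.hasSum.eventually_const_lt
    (show (∑' p : Nat.Primes, ((p : ℕ) : ℝ) ^ (-s)) - 1 <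
      ∑' p : Nat.Primes, ((p : ℕ) : ℝ) ^ (-s) by linarith)).exists
  refine ⟨U.image (fun p : Nat.Primes => (p : ℕ)) ∪ T, Finset.subset_union_right, ?_, ?_⟩
  · intro r hr
    rw [Finset.mem_union, Finset.mem_image] at hr
    rcases hr with ⟨p, _, rfl⟩ | hr
    · exact p.2
    · exact hT r hr
  · have h1 : ∑ p ∈ U, ((p : ℕ) : ℝ) ^ (-s) =
        ∑ r ∈ U.image (fun p : Nat.Primes => (p : ℕ)), ((r : ℕ) : ℝ) ^ (-s) := by
      rw [Finset.sum_image]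
      intro x _ y _ hxy
      exact Subtype.ext hxy
    have h2 : ∑ r ∈ U.image (fun p : Nat.Primes => (p : ℕ)), ((r : ℕ) : ℝ) ^ (-s) ≤
        ∑ r ∈ U.image (fun p : Nat.Primes => (p : ℕ)) ∪ T, ((r : ℕ) : ℝ) ^ (-s) :=
      Finset.sum_le_sum_of_subset_of_nonneg Finset.subset_union_left
        (fun r _ _ => by positivity)
    rw [h1] at hU
    linarith

/-- the sum over a set of primes with convergent sum of reciprocals -/
lemma ind_sum_le {N : Set ℕ} (hN : ∀ r ∈ N, r.Prime)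
    (hsum : Summable (fun r : ℕ => N.indicator (fun n : ℕ => (1 : ℝ) / n) r))
    (V : Finset ℕ) {s : ℝ} (hs : 1 < s) :
    ∑ r ∈ V, N.indicator (fun _ => ((r : ℕ) : ℝ) ^ (-s)) r ≤
      ∑' r : ℕ, N.indicator (fun n : ℕ => (1 : ℝ) / n) r := by
  classical
  have hnn : ∀ r : ℕ, 0 ≤ N.indicator (fun n : ℕ => (1 : ℝ) / n) r := by
    intro r
    exact Set.indicator_nonneg (fun n _ => by positivity) r
  calc ∑ r ∈ V, N.indicator (fun _ => ((r : ℕ) : ℝ) ^ (-s)) r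
      ≤ ∑ r ∈ V, N.indicator (fun n : ℕ => (1 : ℝ) / n) r := by
        refine Finset.sum_le_sum (fun r _ => ?_)
        by_cases h : r ∈ N
        · rw [Set.indicator_of_mem h, Set.indicator_of_mem h]
          exact rpow_neg_le_inv (hN r h) hs
        · rw [Set.indicator_of_notMem h, Set.indicator_of_notMem h]
    _ ≤ _ := hsum.sum_le_tsum V (fun r _ => hnn r)

/-- the limit `s → 1` -/
lemma close (hDir : ∀ m : ℕ, 0 < m → ¬ Summable (fun r : ℕ =>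
    {r : ℕ | r.Prime ∧ m ∣ r - 1}.indicator (fun n : ℕ => (1 : ℝ) / n) r)) (m : ℕ) (hm : 0 < m)
    (K : ℝ) (main : ∀ T : Finset ℕ, (∀ r ∈ T, r.Prime ∧ m ∣ r - 1) → ∀ s : ℝ, 1 < s → s < 2 →
      ∑ r ∈ T, ((r : ℕ) : ℝ) ^ (-s) ≤ K) : False := by
  classical
  have main1 : ∀ T : Finset ℕ, (∀ r ∈ T, r.Prime ∧ m ∣ r - 1) →
      ∑ r ∈ T, (1 : ℝ) / ((r : ℕ) : ℝ) ≤ K := by
    intro T hT
    have hcont : Filter.Tendsto (fun s : ℝ => ∑ r ∈ T, ((r : ℕ) : ℝ) ^ (-s))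
        (nhdsWithin 1 (Set.Ioi 1)) (nhds (∑ r ∈ T, ((r : ℕ) : ℝ) ^ (-(1 : ℝ)))) := by
      refine Filter.Tendsto.mono_left ?_ nhdsWithin_le_nhds
      refine tendsto_finsetSum _ (fun r hr => ?_)
      have hr0 : ((r : ℕ) : ℝ) ≠ 0 := by exact_mod_cast (hT r hr).1.ne_zero
      exact ((Real.continuousAt_const_rpow hr0).comp continuous_neg.continuousAt).tendsto
    have hle : ∀ᶠ s : ℝ in nhdsWithin 1 (Set.Ioi 1), ∑ r ∈ T, ((r : ℕ) : ℝ) ^ (-s) ≤ K := by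
      have : Set.Ioo (1 : ℝ) 2 ∈ nhdsWithin (1 : ℝ) (Set.Ioi 1) :=
        Ioo_mem_nhdsGT (by norm_num)
      filter_upwards [this] with s hs
      exact main T hT s hs.1 hs.2
    have := le_of_tendsto hcont hle
    refine le_trans (le_of_eq ?_) this
    refine Finset.sum_congr rfl (fun r _ => ?_)
    rw [Real.rpow_neg_one, one_div]
  refine hDir m hm (summable_of_sum_le (c := K) ?_ ?_)
  · intro r
    exact Set.indicator_nonneg (fun n _ => by positivity) r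
  · intro u
    have e : ∑ r ∈ u, {r : ℕ | r.Prime ∧ m ∣ r - 1}.indicator (fun n : ℕ => (1 : ℝ) / n) r =
        ∑ r ∈ u.filter (fun r => r.Prime ∧ m ∣ r - 1), (1 : ℝ) / ((r : ℕ) : ℝ) := by
      rw [Finset.sum_filter]
      refine Finset.sum_congr rfl (fun r _ => ?_)
      rw [Set.indicator_apply]
      rfl
    rw [e]
    exact main1 _ (fun r hr => (Finset.mem_filter.mp hr).2)

/-- the relation between `ρ` and `-ρ` -/
lemma point {ρ r : ℕ} (hr : r.Prime) (hb : ¬ r ∣ 2 * ρ) :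
    (4 ∣ r - 1 → (∃ t : ZMod r, t ^ 2 = ((ρ : ℤ) : ZMod r)) →
      ∃ t : ZMod r, t ^ 2 = ((-(ρ : ℤ) : ℤ) : ZMod r)) ∧
    (¬ 4 ∣ r - 1 → (¬ ∃ t : ZMod r, t ^ 2 = ((ρ : ℤ) : ZMod r)) →
      ∃ t : ZMod r, t ^ 2 = ((-(ρ : ℤ) : ℤ) : ZMod r)) := by
  have : Fact r.Prime := ⟨hr⟩
  have h2 : r ≠ 2 := by
    rintro rfl
    exact hb (Dvd.intro _ rfl)
  have hρ : (ρ : ZMod r) ≠ 0 := by
    intro h
    rw [ZMod.natCast_eq_zero_iff] at h
    exact hb (h.mul_left 2)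
  have hodd := hr.eq_two_or_odd.resolve_left h2
  have hr1 := hr.one_lt
  constructor
  · intro h4 ⟨t, ht⟩
    have h5 : r % 4 ≠ 3 := by omega
    obtain ⟨i, hi⟩ := ZMod.exists_sq_eq_neg_one_iff.mpr h5
    refine ⟨i * t, ?_⟩
    rw [mul_pow, ht, Int.cast_neg, sq, ← hi]
    ring
  · intro h4 hn
    have h5 : r % 4 = 3 := by omega
    have h6 : ¬ IsSquare (-1 : ZMod r) := fun h => ZMod.exists_sq_eq_neg_one_iff.mp h h5
    have h7 : ¬ IsSquare (ρ : ZMod r) := by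
      rintro ⟨t, ht⟩
      exact hn ⟨t, by rw [Int.cast_natCast, ht, sq]⟩
    have hchar : ringChar (ZMod r) ≠ 2 := by
      rw [ZMod.ringChar_zmod_n]
      exact h2
    have e1 := quadraticChar_neg_one_iff_not_isSquare.mpr h6
    have e2 := quadraticChar_neg_one_iff_not_isSquare.mpr h7
    have e3 : quadraticChar (ZMod r) (-1 * (ρ : ZMod r)) = 1 := by
      rw [map_mul, e1, e2]; norm_num
    have hne : (-1 : ZMod r) * (ρ : ZMod r) ≠ 0 := by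
      rw [neg_one_mul]
      exact neg_ne_zero.mpr hρ
    obtain ⟨t, ht⟩ := (quadraticChar_one_iff_isSquare hne).mp e3
    refine ⟨t, ?_⟩
    rw [sq, ← ht, Int.cast_neg, Int.cast_natCast]
    ring

theorem taskD2 : TaskD2 := by
  classical
  intro hA hB hC hDir
  constructor
  · intro η hη hsum
    obtain ⟨C, hCη⟩ := chi_sum_le hA hB hC η hη
    set N : Set ℕ := {r : ℕ | r.Prime ∧ ¬ ∃ t : ZMod r, t ^ 2 = (η : ZMod r)} with hN
    set S : ℝ := ∑' r : ℕ, N.indicator (fun n : ℕ => (1 : ℝ) / n) r with hS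
    apply close hDir 1 one_pos (C + 2 * S)
    intro T hT s hs1 hs2
    obtain ⟨V, hTV, hVp, hV⟩ := large T (fun r hr => (hT r hr).1) s hs1
    have hnn : ∀ r : ℕ, (0 : ℝ) ≤ ((r : ℕ) : ℝ) ^ (-s) := fun r => by positivity
    have h1 := hCη s hs1 hs2 V hVp hV
    have h2 := ind_sum_le (fun r hr => hr.1) hsum V hs1
    rw [← hS] at h2
    have h3 : ∑ r ∈ T, ((r : ℕ) : ℝ) ^ (-s) ≤ ∑ r ∈ V, ((r : ℕ) : ℝ) ^ (-s) :=
      Finset.sum_le_sum_of_subset_of_nonneg hTV (fun r _ _ => hnn r)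
    have h4 : ∑ r ∈ V, ((r : ℕ) : ℝ) ^ (-s) ≤
        ∑ r ∈ V, (chi η r * ((r : ℕ) : ℝ) ^ (-s) +
          2 * N.indicator (fun _ => ((r : ℕ) : ℝ) ^ (-s)) r) := by
      apply Finset.sum_le_sum
      intro r hr
      by_cases h : ∃ t : ZMod r, t ^ 2 = (η : ZMod r)
      · have hn : r ∉ N := fun hh => hh.2 h
        rw [chi_pos h, Set.indicator_of_notMem hn]
        linarith
      · have hn : r ∈ N := ⟨hVp r hr, h⟩
        rw [chi_neg h, Set.indicator_of_mem hn]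
        linarith
    rw [Finset.sum_add_distrib, ← Finset.mul_sum] at h4
    linarith
  · intro ρ hρ hsq hsum
    have hs1 : ¬ ∃ t : ℤ, t ^ 2 = (ρ : ℤ) := by
      rintro ⟨t, ht⟩
      apply hsq
      refine ⟨t.natAbs, ?_⟩
      have : ((t.natAbs : ℕ) : ℤ) ^ 2 = (ρ : ℤ) := by rw [Int.natAbs_sq, ht]
      exact_mod_cast this
    have hs2 : ¬ ∃ t : ℤ, t ^ 2 = -(ρ : ℤ) := by
      rintro ⟨t, ht⟩
      have h1 : (0 : ℤ) < ρ := by exact_mod_cast hρ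
      nlinarith [sq_nonneg t]
    obtain ⟨C1, hC1⟩ := chi_sum_le hA hB hC (ρ : ℤ) hs1
    obtain ⟨C2, hC2⟩ := chi_sum_le hA hB hC (-(ρ : ℤ)) hs2
    set N : Set ℕ := {r : ℕ | (r.Prime ∧ 4 ∣ r - 1) ∧ ¬ ∃ t : ZMod r, t ^ 2 = (ρ : ZMod r)} with hN
    set S : ℝ := ∑' r : ℕ, N.indicator (fun n : ℕ => (1 : ℝ) / n) r with hS
    have hb0 : 2 * ρ ≠ 0 := by omega
    set D : ℝ := ((2 * ρ).primeFactors.card : ℝ) with hD
    apply close hDir 4 (by norm_num) (2 * S + C1 / 2 + C2 / 2 + 2 * D)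
    intro T hT s hs1' hs2'
    obtain ⟨V, hTV, hVp, hV⟩ := large T (fun r hr => (hT r hr).1) s hs1'
    have hnn : ∀ r : ℕ, (0 : ℝ) ≤ ((r : ℕ) : ℝ) ^ (-s) := fun r => by positivity
    have h1 := hC1 s hs1' hs2' V hVp hV
    have h1' := hC2 s hs1' hs2' V hVp hV
    have h2 := ind_sum_le (fun r hr => hr.1.1) hsum V hs1'
    rw [← hS] at h2
    have h5 := bad_sum_le hb0 V hVp hs1'
    rw [← hD, Finset.sum_filter] at h5
    have h3 : ∑ r ∈ T, ((r : ℕ) : ℝ) ^ (-s) ≤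
        ∑ r ∈ V, (if 4 ∣ r - 1 then ((r : ℕ) : ℝ) ^ (-s) else 0) := by
      rw [← Finset.sum_filter]
      apply Finset.sum_le_sum_of_subset_of_nonneg _ (fun r _ _ => hnn r)
      intro r hr
      rw [Finset.mem_filter]
      exact ⟨hTV hr, (hT r hr).2⟩
    have h4 : ∑ r ∈ V, (if 4 ∣ r - 1 then ((r : ℕ) : ℝ) ^ (-s) else 0) ≤
        ∑ r ∈ V, (2 * N.indicator (fun _ => ((r : ℕ) : ℝ) ^ (-s)) r +
          (1 / 2) * (chi (ρ : ℤ) r * ((r : ℕ) : ℝ) ^ (-s)) +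
          (1 / 2) * (chi (-(ρ : ℤ)) r * ((r : ℕ) : ℝ) ^ (-s)) +
          2 * (if r ∣ 2 * ρ then ((r : ℕ) : ℝ) ^ (-s) else 0)) := by
      apply Finset.sum_le_sum
      intro r hr
      have hrp := hVp r hr
      have hx := hnn r
      have hN0 : 0 ≤ N.indicator (fun _ => ((r : ℕ) : ℝ) ^ (-s)) r :=
        Set.indicator_nonneg (fun _ _ => hx) r
      have hc1 := mul_le_mul_of_nonneg_right (le_chi (ρ : ℤ) r) hx
      have hc2 := mul_le_mul_of_nonneg_right (le_chi (-(ρ : ℤ)) r) hx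
      by_cases hb : r ∣ 2 * ρ
      · rw [if_pos hb]
        have : (if 4 ∣ r - 1 then ((r : ℕ) : ℝ) ^ (-s) else 0) ≤ ((r : ℕ) : ℝ) ^ (-s) := by
          split_ifs
          · exact le_rfl
          · exact hx
        linarith
      · rw [if_neg hb]
        obtain ⟨p1, p2⟩ := point hrp hb
        by_cases h4 : 4 ∣ r - 1
        · rw [if_pos h4]
          by_cases h : ∃ t : ZMod r, t ^ 2 = ((ρ : ℤ) : ZMod r)
          · rw [chi_pos h, chi_pos (p1 h4 h)]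
            linarith
          · have hn : r ∈ N := ⟨⟨hrp, h4⟩, by rwa [Int.cast_natCast] at h⟩
            rw [chi_neg h, Set.indicator_of_mem hn]
            linarith
        · rw [if_neg h4]
          by_cases h : ∃ t : ZMod r, t ^ 2 = ((ρ : ℤ) : ZMod r)
          · rw [chi_pos h]
            linarith
          · rw [chi_pos (p2 h4 h)]
            linarith
    rw [Finset.sum_add_distrib, Finset.sum_add_distrib, Finset.sum_add_distrib, ← Finset.mul_sum,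
      ← Finset.mul_sum, ← Finset.mul_sum, ← Finset.mul_sum] at h4
    linarith

end Pool.Agent.H431R3.Kum
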